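import Mathlib

set_option autoImplicit false

/-!
# Automaton groups over nonabelian groups and lamplighter groups

`aMap i` is the transformation of the set of finite words over the finite group `Y` defined by
the state `a_i` of the automaton `A_Y`; `GY Y` is the group which these transformations generate;
`InWY` says that a permutation of the set of words lies in the finite state wreath power `W_Y`;
`Lamp Y` is the restricted wreath product of `Y` by the infinite cyclic group.
-/

namespace Q52.Lamp

variable {Y : Type*} [Group Y]

/-- The transformation of the set of finite words defined by the state `a_i`: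
`a_i(∅) = ∅` and `a_i(j w) = (i j) a_{j⁻¹ i}(w)`. -/
def aMap : Y → List Y → List Y
  | _, [] => []
  | i, j :: w => (i * j) :: aMap (j⁻¹ * i) w

/-- The inverse transformation of `aMap i`. -/
def aInv : Y → List Y → List Y
  | _, [] => []
  | i, y :: w => (i⁻¹ * y) :: aInv ((i⁻¹ * y)⁻¹ * i) w

theorem aInv_aMap (w : List Y) : ∀ i : Y, aInv i (aMap i w) = w := by
  induction w with
  | nil => intro i; rfl
  | cons j w ih =>
    intro i
    simp only [aMap, aInv]
    have h : i⁻¹ * (i * j) = j := by group
    rw [h, ih]

theorem aMap_aInv (w : List Y) : ∀ i : Y, aMap i (aInv i w) = w := by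
  induction w with
  | nil => intro i; rfl
  | cons y w ih =>
    intro i
    simp only [aMap, aInv]
    have h : i * (i⁻¹ * y) = y := by group
    rw [h, ih]

/-- The state `a_i` of the automaton as a permutation of the set of finite words. -/
def aPerm (i : Y) : Equiv.Perm (List Y) where
  toFun := aMap i
  invFun := aInv i
  left_inv := fun w => aInv_aMap w i
  right_inv := fun w => aMap_aInv w i

variable (Y) in
/-- The group generated by the transformations `a_i`, `i ∈ Y`. -/
def GY : Subgroup (Equiv.Perm (List Y)) := Subgroup.closure (Set.range aPerm)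

/-- The transformation of the set of words defined at the state `q` of the automaton with
transition function `δ` whose output map at the state `s` is the left multiplication by `g s`. -/
def run {Q : Type*} (δ : Q → Y → Q) (g : Q → Y) : Q → List Y → List Y
  | _, [] => []
  | q, x :: w => (g q * x) :: run δ g (δ q x) w

/-- The permutation `p` of the set of words belongs to the finite state wreath power of `Y`: it is
defined at some state of some finite automaton all of whose output maps are left
multiplications. -/
def InWY (p : Equiv.Perm (List Y)) : Prop :=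
  ∃ (Q : Type) (_ : Finite Q) (δ : Q → Y → Q) (g : Q → Y) (q : Q), ∀ w, p w = run δ g q w

variable (Y) in
/-- The finitely supported functions from the integers to `Y`, with pointwise product: the direct
sum of copies of `Y` indexed by the integers. -/
def Base : Subgroup (ℤ → Y) where
  carrier := {f | (Function.mulSupport f).Finite}
  mul_mem' := fun {a b} ha hb => (Set.Finite.union ha hb).subset (Function.mulSupport_mul a b)
  one_mem' := by simp
  inv_mem' := fun {a} ha => by
    show (Function.mulSupport a⁻¹).Finite
    rw [Function.mulSupport_inv]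
    exact ha

theorem shift_mem (n : ℤ) {f : ℤ → Y} (hf : f ∈ Base Y) : (fun m => f (m - n)) ∈ Base Y := by
  have h : Function.mulSupport (fun m => f (m - n)) = (fun m => m - n) ⁻¹' Function.mulSupport f :=
    rfl
  show (Function.mulSupport (fun m => f (m - n))).Finite
  rw [h]
  exact Set.Finite.preimage (fun a _ b _ hab => by simpa using hab) hf

/-- The shift of coordinates by the integer `n`, as an automorphism of the direct sum. -/
def shiftAut (n : ℤ) : MulAut (Base Y) where
  toFun f := ⟨fun m => f.1 (m - n), shift_mem n f.2⟩
  invFun f := ⟨fun m => f.1 (m + n), by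
    have h := shift_mem (-n) f.2
    simpa using h⟩
  left_inv f := by ext m; simp
  right_inv f := by ext m; simp
  map_mul' f g := rfl

variable (Y) in
/-- The action of the infinite cyclic group on the direct sum by shifting coordinates. -/
def shift : Multiplicative ℤ →* MulAut (Base Y) where
  toFun n := shiftAut n.toAdd
  map_one' := by ext f m; simp [shiftAut]
  map_mul' a b := by
    ext f m
    show f.1 (m - (a * b).toAdd) = f.1 (m - a.toAdd - b.toAdd)
    rw [toAdd_mul, sub_sub]

variable (Y) in
/-- The restricted wreath product of `Y` by the infinite cyclic group. -/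
abbrev Lamp : Type _ := SemidirectProduct (Base Y) (Multiplicative ℤ) (shift Y)

/-! ### Length preserving permutations -/

theorem length_aMap (w : List Y) : ∀ i : Y, (aMap i w).length = w.length := by
  induction w with
  | nil => intro i; rfl
  | cons j w ih => intro i; simp [aMap, ih]

theorem length_run {Q : Type*} (δ : Q → Y → Q) (g : Q → Y) (w : List Y) :
    ∀ q : Q, (run δ g q w).length = w.length := by
  induction w with
  | nil => intro q; rfl
  | cons j w ih => intro q; simp [run, ih]

variable (Y) in
/-- The group of the permutations of the set of words which preserve the length. -/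
def LP : Subgroup (Equiv.Perm (List Y)) where
  carrier := {p | ∀ w, (p w).length = w.length}
  mul_mem' := fun {a b} ha hb w => by
    rw [Equiv.Perm.mul_apply, ha, hb]
  one_mem' := fun w => rfl
  inv_mem' := fun {a} ha w => by
    have h := ha (a⁻¹ w)
    have h2 : a (a⁻¹ w) = w := a.apply_symm_apply w
    rw [h2] at h
    exact h.symm

theorem mem_LP {p : Equiv.Perm (List Y)} : p ∈ LP Y ↔ ∀ w, (p w).length = w.length := Iff.rfl

theorem GY_le : GY Y ≤ LP Y := by
  rw [GY, Subgroup.closure_le]
  rintro _ ⟨i, rfl⟩
  exact fun w => length_aMap w i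

theorem InWY.mem_LP {p : Equiv.Perm (List Y)} (h : InWY p) : p ∈ LP Y := by
  obtain ⟨Q, _, δ, g, q, hp⟩ := h
  intro w
  rw [hp, length_run]

/-- Some positive power of a length preserving permutation fixes all the words of length `n`. -/
theorem exists_pow_fix [Finite Y] {p : Equiv.Perm (List Y)} (hp : p ∈ LP Y) (n : ℕ) :
    ∃ N : ℕ, 0 < N ∧ ∀ w : List Y, w.length = n → (p ^ N) w = w := by
  classical
  have hfin : Finite {w : List Y // w.length = n} := by
    have : Finite (List.Vector Y n) := by
      haveI := Fintype.ofFinite Y
      infer_instance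
    exact this
  let r : Equiv.Perm {w : List Y // w.length = n} :=
    p.subtypePerm (p := fun w => w.length = n) (fun w => by rw [hp w])
  obtain ⟨N, hN, hr⟩ := isOfFinOrder_iff_pow_eq_one.1 (isOfFinOrder_of_finite r)
  refine ⟨N, hN, fun w hw => ?_⟩
  have key : ∀ (M : ℕ) (v : {w : List Y // w.length = n}), ((r ^ M) v : List Y) = (p ^ M) v := by
    intro M
    induction M with
    | zero => intro v; simp
    | succ M ih =>
      intro v
      rw [pow_succ, pow_succ, Equiv.Perm.mul_apply, Equiv.Perm.mul_apply, ih]
      rfl
  have := key N ⟨w, hw⟩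
  rw [hr] at this
  simpa using this.symm

/-- The element of the direct sum concentrated at the coordinate `0`. -/
def at0 (y : Y) : Base Y :=
  ⟨Pi.mulSingle 0 y, by
    show (Function.mulSupport (Pi.mulSingle (0 : ℤ) y : ℤ → Y)).Finite
    exact (Set.finite_singleton (0 : ℤ)).subset Pi.mulSupport_mulSingle_subset⟩

theorem at0_mul (a b : Y) : at0 (a * b) = at0 a * at0 b := by
  ext m
  simp [at0, Pi.mulSingle_mul]

theorem at0_inj {a b : Y} (h : at0 a = at0 b) : a = b := by
  have := congrArg (fun f => f.1 0) h
  simpa [at0] using this

/-- For `N ≠ 0` the conjugate of the copy of `Y` at `0` by the `N`-th power of the shift commutes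
with the copy of `Y` at `0`. -/
theorem comm_shift {N : ℤ} (hN : N ≠ 0) (a b : Y) :
    at0 a * shiftAut N (at0 b) = shiftAut N (at0 b) * at0 a := by
  ext m
  by_cases hm : m = 0
  · subst hm
    have : (shiftAut N (at0 b)).1 0 = 1 := by
      show (Pi.mulSingle (0 : ℤ) b : ℤ → Y) (0 - N) = 1
      rw [Pi.mulSingle_eq_of_ne]
      simpa using hN
    show (at0 a).1 0 * (shiftAut N (at0 b)).1 0 = (shiftAut N (at0 b)).1 0 * (at0 a).1 0
    rw [this]; simp
  · have : (at0 a).1 m = 1 := by
      show (Pi.mulSingle (0 : ℤ) a : ℤ → Y) m = 1
      rw [Pi.mulSingle_eq_of_ne hm]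
    show (at0 a).1 m * (shiftAut N (at0 b)).1 m = (shiftAut N (at0 b)).1 m * (at0 a).1 m
    rw [this]; simp

/-- No group of length preserving permutations of the set of finite words over a finite alphabet
is isomorphic to the restricted wreath product of a nonabelian group by the infinite cyclic
group. -/
theorem isEmpty_of_le [Finite Y] (hY : ∃ a b : Y, a * b ≠ b * a)
    (H : Subgroup (Equiv.Perm (List Y))) (hH : H ≤ LP Y) : IsEmpty (H ≃* Lamp Y) := by
  refine ⟨fun e => ?_⟩
  obtain ⟨a, b, hab⟩ := hY
  apply hab
  let φ : Lamp Y →* Equiv.Perm (List Y) := H.subtype.comp e.symm.toMonoidHom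
  have hφinj : Function.Injective φ := by
    intro x y hxy
    exact e.symm.injective (Subtype.ext hxy)
  have hφ : ∀ x, φ x ∈ LP Y := fun x => hH (e.symm x).2
  let A : Lamp Y := SemidirectProduct.inl (at0 a)
  let B : Lamp Y := SemidirectProduct.inl (at0 b)
  let z : Lamp Y := SemidirectProduct.inr (Multiplicative.ofAdd 1)
  have hconj : ∀ N : ℕ, z ^ N * B * (z ^ N)⁻¹ =
      SemidirectProduct.inl (shiftAut (N : ℤ) (at0 b)) := by
    intro N
    have hz : z ^ N = SemidirectProduct.inr (Multiplicative.ofAdd (N : ℤ)) := by
      show (SemidirectProduct.inr (Multiplicative.ofAdd (1 : ℤ)) : Lamp Y) ^ N = _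
      rw [← map_pow]
      congr 1
      rw [← ofAdd_nsmul]
      simp
    rw [hz, ← map_inv]
    exact (SemidirectProduct.inl_aut (Multiplicative.ofAdd (N : ℤ)) (at0 b)).symm
  have hcomm : ∀ N : ℕ, 0 < N →
      A * (z ^ N * B * (z ^ N)⁻¹) = (z ^ N * B * (z ^ N)⁻¹) * A := by
    intro N hN
    rw [hconj]
    show SemidirectProduct.inl (at0 a) * SemidirectProduct.inl _ =
      SemidirectProduct.inl _ * SemidirectProduct.inl (at0 a)
    rw [← map_mul, ← map_mul, comm_shift (by exact_mod_cast hN.ne')]
  have hperm : φ A * φ B = φ B * φ A := by
    ext1 w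
    obtain ⟨N, hN, hfix⟩ := exists_pow_fix (hφ z) w.length
    have hfix' : ∀ v : List Y, v.length = w.length → ((φ z ^ N)⁻¹) v = v := by
      intro v hv
      rw [Equiv.Perm.inv_eq_iff_eq]
      exact (hfix v hv).symm
    have hc := congrArg (fun x => φ x) (hcomm N hN)
    simp only [map_mul, map_inv, map_pow] at hc
    have hq : ∀ v : List Y, v.length = w.length →
        (φ z ^ N * φ B * (φ z ^ N)⁻¹) v = φ B v := by
      intro v hv
      rw [Equiv.Perm.mul_apply, Equiv.Perm.mul_apply, hfix' v hv, hfix]
      rw [hφ B, hv]
    have h1 := congrArg (fun p : Equiv.Perm (List Y) => p w) hc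
    simp only [Equiv.Perm.mul_apply] at h1 hq ⊢
    rw [hq w rfl, hq (φ A w) (hφ A w)] at h1
    exact h1
  have h2 : A * B = B * A := hφinj (by rw [map_mul, map_mul, hperm])
  have h3 : (SemidirectProduct.inl (at0 (a * b)) : Lamp Y) =
      SemidirectProduct.inl (at0 (b * a)) := by
    rw [at0_mul, at0_mul, map_mul, map_mul]
    exact h2
  exact at0_inj (SemidirectProduct.inl_injective h3)

end Q52.Lamp
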